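import Mathlib

/-!
# MP_b0ae03_co, Q1: the parity pattern for the Game of Cycles fails on triangle-free boards

Two triangle-free boards (in fact bipartite, with all degrees at least two):
* a board with 9 edges (the cube graph minus a vertex) on which Player 2 has a winning strategy;
* a board with 10 edges on which Player 1 has a winning strategy.

Plane graphs are given by combinatorial maps: darts (oriented edges), the reversal of darts, the
rotation of the darts around their origins; the faces are the orbits of `rot ∘ rev`, and planarity
is Euler's formula.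
-/

namespace Pool.Agent.Results.MP_b0ae03_co.TriangleFreeBoards

/-- A game board: a finite connected simple plane graph, with at least one edge, given by its
combinatorial map.  Vertices, darts and faces are numbered.  A dart is an edge together with one
of its two directions. -/
structure Board (nv nd nf : ℕ) where
  /-- the origin of a dart -/
  src : Fin nd → Fin nv
  /-- the opposite dart -/
  rev : Fin nd → Fin nd
  /-- the next dart in the rotation around the origin -/
  rot : Fin nd → Fin nd
  /-- the face on a fixed side of the dart -/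
  face : Fin nd → Fin nf
  /-- the unbounded face; the other faces are the cells -/
  outer : Fin nf
  rev_rev : ∀ d, rev (rev d) = d
  no_loop : ∀ d, src (rev d) ≠ src d
  simple : ∀ d e, src d = src e → src (rev d) = src (rev e) → d = e
  src_surj : ∀ v, ∃ d, src d = v
  face_surj : ∀ f, ∃ d, face d = f
  vertex_orbit : ∀ d e, src d = src e ↔ ∃ k : ℕ, rot^[k] d = e
  face_orbit : ∀ d e, face d = face e ↔ ∃ k : ℕ, (fun x => rot (rev x))^[k] d = e
  connected : ∀ u v, Relation.ReflTransGen (fun a b => ∃ d, src d = a ∧ src (rev d) = b) u v
  /-- Euler's formula `V - E + F = 2`, where `nd = 2 E` -/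
  euler : 2 * nv + 2 * nf = nd + 4

variable {nv nd nf : ℕ}

/-- There is no 3-cycle. -/
def TriangleFree (B : Board nv nd nf) : Prop :=
  ∀ d e f, ¬ (B.src (B.rev d) = B.src e ∧ B.src (B.rev e) = B.src f ∧ B.src (B.rev f) = B.src d)

/-- The number of edges: half the number of darts. -/
def edgeCount (_ : Board nv nd nf) : ℕ := nd / 2

/-- `v` is a source of the partial orientation `M` (the set of the chosen darts): all its edges
are marked and point away from it. -/
def Source (B : Board nv nd nf) (M : Finset (Fin nd)) (v : Fin nv) : Prop :=
  ∀ d, B.src d = v → d ∈ M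

/-- `v` is a sink: all its edges are marked and point toward it. -/
def Sink (B : Board nv nd nf) (M : Finset (Fin nd)) (v : Fin nv) : Prop :=
  ∀ d, B.src d = v → B.rev d ∈ M

/-- Marking the edge of `d` in the direction `d` is a legal move: the edge is unmarked, and after
the move there is neither a sink nor a source. -/
def Legal (B : Board nv nd nf) (M : Finset (Fin nd)) (d : Fin nd) : Prop :=
  d ∉ M ∧ B.rev d ∉ M ∧ ∀ v, ¬ Source B (insert d M) v ∧ ¬ Sink B (insert d M) v

/-- There is a cycle cell: a bounded face all of whose boundary edges are marked and oriented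
consistently around it, in one sense or the other. -/
def HasCycleCell (B : Board nv nd nf) (M : Finset (Fin nd)) : Prop :=
  ∃ f, f ≠ B.outer ∧ ((∀ d, B.face d = f → d ∈ M) ∨ (∀ d, B.face d = f → B.rev d ∈ M))

/-- `Wins B true M`: at the position `M` the player who is to move has a winning strategy.
`Wins B false M`: the player who is not to move has a winning strategy.  A player wins by creating
a cycle cell, or by making the last legal move. -/
inductive Wins (B : Board nv nd nf) : Bool → Finset (Fin nd) → Prop
  | cycle {M : Finset (Fin nd)} (d : Fin nd) (h : Legal B M d)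
      (hc : HasCycleCell B (insert d M)) : Wins B true M
  | move {M : Finset (Fin nd)} (d : Fin nd) (h : Legal B M d)
      (hw : Wins B false (insert d M)) : Wins B true M
  | other {M : Finset (Fin nd)}
      (h1 : ∀ d, Legal B M d → ¬ HasCycleCell B (insert d M))
      (h2 : ∀ d, Legal B M d → Wins B true (insert d M)) : Wins B false M

/-- Player 1 has a winning strategy. -/
def Player1Wins (B : Board nv nd nf) : Prop := Wins B true ∅

/-- Player 2 has a winning strategy. -/
def Player2Wins (B : Board nv nd nf) : Prop := Wins B false ∅

/-- Not both players have a winning strategy. -/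
theorem not_both (B : Board nv nd nf) {b : Bool} {M : Finset (Fin nd)} (h : Wins B b M) :
    ¬ Wins B (!b) M := by
  induction h with
  | cycle d h hc =>
    intro h'
    cases h' with
    | other h1 h2 => exact h1 d h hc
  | move d h hw ih =>
    intro h'
    cases h' with
    | other h1 h2 => exact ih (h2 d h)
  | other h1 h2 ih =>
    intro h'
    cases h' with
    | cycle d h hc => exact h1 d h hc
    | move d h hw => exact ih d h hw

/-! ### Bit masks -/

/-- The set of darts with a given bit mask. -/
def dec (nd m : ℕ) : Finset (Fin nd) := Finset.univ.filter (fun d => m.testBit d = true)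

theorem mem_dec {m : ℕ} {d : Fin nd} : d ∈ dec nd m ↔ m.testBit d = true := by simp [dec]

theorem dec_insert (m : ℕ) (d : Fin nd) : dec nd (m ||| 2 ^ (d : ℕ)) = insert d (dec nd m) := by
  ext e
  rw [mem_dec, Finset.mem_insert, mem_dec, Nat.testBit_or, Nat.testBit_two_pow]
  simp only [Bool.or_eq_true, decide_eq_true_eq]
  constructor
  · rintro (h | h)
    · exact Or.inr h
    · exact Or.inl (Fin.ext h.symm)
  · rintro (h | h)
    · exact Or.inr (by rw [h])
    · exact Or.inl h

/-- `o` is the bit mask of the set of darts satisfying `p`. -/
def IsMask (nd : ℕ) (p : Fin nd → Prop) (o : ℕ) : Prop :=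
  o < 2 ^ nd ∧ ∀ d : Fin nd, o.testBit d = true ↔ p d

theorem mask_iff {p : Fin nd → Prop} {o : ℕ} (ho : IsMask nd p o) (m : ℕ) :
    (m &&& o = o) ↔ ∀ d, p d → d ∈ dec nd m := by
  constructor
  · intro h d hd
    rw [mem_dec]
    have h1 := (ho.2 d).mpr hd
    rw [← h, Nat.testBit_and, Bool.and_eq_true] at h1
    exact h1.1
  · intro h
    apply Nat.eq_of_testBit_eq
    intro i
    rw [Nat.testBit_and]
    by_cases hi : i < nd
    · cases hoi : o.testBit i with
      | false => simp
      | true =>
        have h1 := h ⟨i, hi⟩ ((ho.2 ⟨i, hi⟩).mp hoi)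
        rw [mem_dec] at h1
        simp only at h1
        rw [h1]
        rfl
    · have : o.testBit i = false := by
        apply Nat.testBit_lt_two_pow
        exact lt_of_lt_of_le ho.1 (Nat.pow_le_pow_right (by norm_num) (by omega))
      rw [this, Bool.and_false]

/-- The bit masks `vm` of the stars of the vertices and `fm` of the boundaries of the cells. -/
structure Masks (B : Board nv nd nf) (vm fm : List ℕ) : Prop where
  rev_eq : ∀ d, (B.rev d : ℕ) = (d : ℕ) ^^^ 1
  v1 : ∀ o ∈ vm, ∃ v, IsMask nd (fun d => B.src d = v) o ∨ IsMask nd (fun d => B.src (B.rev d) = v) o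
  v2 : ∀ v, (∃ o ∈ vm, IsMask nd (fun d => B.src d = v) o) ∧
    (∃ o ∈ vm, IsMask nd (fun d => B.src (B.rev d) = v) o)
  f1 : ∀ o ∈ fm, ∃ f, f ≠ B.outer ∧
    (IsMask nd (fun d => B.face d = f) o ∨ IsMask nd (fun d => B.face (B.rev d) = f) o)
  f2 : ∀ f, f ≠ B.outer → (∃ o ∈ fm, IsMask nd (fun d => B.face d = f) o) ∧
    (∃ o ∈ fm, IsMask nd (fun d => B.face (B.rev d) = f) o)

/-- Legality of a move, with bit masks. -/
def legalB (vm : List ℕ) (m d : ℕ) : Bool :=
  !(m.testBit d) && !(m.testBit (d ^^^ 1)) && vm.all (fun o => (m ||| 2 ^ d) &&& o != o)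

/-- Existence of a cycle cell, with bit masks. -/
def cycB (fm : List ℕ) (m : ℕ) : Bool := fm.any (fun o => m &&& o == o)

theorem source_iff (B : Board nv nd nf) {v : Fin nv} {o : ℕ}
    (ho : IsMask nd (fun d => B.src d = v) o) (m : ℕ) :
    (m &&& o = o) ↔ Source B (dec nd m) v := mask_iff ho m

theorem sink_iff (B : Board nv nd nf) {v : Fin nv} {o : ℕ}
    (ho : IsMask nd (fun d => B.src (B.rev d) = v) o) (m : ℕ) :
    (m &&& o = o) ↔ Sink B (dec nd m) v := by
  rw [mask_iff ho]
  constructor
  · intro h d hd
    exact h (B.rev d) (by rw [B.rev_rev]; exact hd)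
  · intro h d hd
    have := h (B.rev d) hd
    rwa [B.rev_rev] at this

theorem legal_iff {B : Board nv nd nf} {vm fm : List ℕ} (hM : Masks B vm fm) (m : ℕ)
    (d : Fin nd) : legalB vm m d = true ↔ Legal B (dec nd m) d := by
  unfold legalB Legal
  rw [← dec_insert, mem_dec, mem_dec, hM.rev_eq]
  simp only [Bool.and_eq_true, Bool.not_eq_true', List.all_eq_true, bne_iff_ne, ne_eq,
    Bool.not_eq_true]
  constructor
  · rintro ⟨⟨h1, h2⟩, h3⟩
    refine ⟨h1, h2, fun v => ?_⟩
    obtain ⟨⟨o, ho, hmo⟩, ⟨o', ho', hmo'⟩⟩ := hM.v2 v
    exact ⟨fun h => h3 o ho ((source_iff B hmo _).mpr h),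
      fun h => h3 o' ho' ((sink_iff B hmo' _).mpr h)⟩
  · rintro ⟨h1, h2, h3⟩
    refine ⟨⟨h1, h2⟩, fun o ho => ?_⟩
    obtain ⟨v, hv | hv⟩ := hM.v1 o ho
    · exact fun h => (h3 v).1 ((source_iff B hv _).mp h)
    · exact fun h => (h3 v).2 ((sink_iff B hv _).mp h)

theorem cyc_iff {B : Board nv nd nf} {vm fm : List ℕ} (hM : Masks B vm fm) (m : ℕ) :
    cycB fm m = true ↔ HasCycleCell B (dec nd m) := by
  unfold cycB HasCycleCell
  simp only [List.any_eq_true, beq_iff_eq]
  have key : ∀ (f : Fin nf) (o : ℕ), IsMask nd (fun d => B.face (B.rev d) = f) o →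
      ((m &&& o = o) ↔ ∀ d, B.face d = f → B.rev d ∈ dec nd m) := by
    intro f o ho
    rw [mask_iff ho]
    constructor
    · intro h d hd
      exact h (B.rev d) (by rw [B.rev_rev]; exact hd)
    · intro h d hd
      have := h (B.rev d) hd
      rwa [B.rev_rev] at this
  constructor
  · rintro ⟨o, ho, hmo⟩
    obtain ⟨f, hf, h | h⟩ := hM.f1 o ho
    · exact ⟨f, hf, Or.inl ((mask_iff h m).mp hmo)⟩
    · exact ⟨f, hf, Or.inr ((key f o h).mp hmo)⟩
  · rintro ⟨f, hf, h⟩
    obtain ⟨⟨o, ho, hmo⟩, ⟨o', ho', hmo'⟩⟩ := hM.f2 f hf
    rcases h with h | h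
    · exact ⟨o, ho, (mask_iff hmo m).mpr h⟩
    · exact ⟨o', ho', (key f o' hmo').mpr h⟩

/-- Binary search trees, used for finite sets of positions. -/
inductive Tree
  | nil
  | node (l : Tree) (m : ℕ) (r : Tree)

/-- The elements of a tree. -/
def Tree.toList : Tree → List ℕ
  | nil => []
  | node l m r => l.toList ++ m :: r.toList

/-- Search in a tree. -/
def Tree.mem (x : ℕ) : Tree → Bool
  | nil => false
  | node l m r => bif Nat.blt x m then l.mem x else bif Nat.blt m x then r.mem x else true

theorem Tree.mem_toList {x : ℕ} : ∀ {t : Tree}, t.mem x = true → x ∈ t.toList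
  | nil, h => absurd h (by simp [Tree.mem])
  | node l m r, h => by
    unfold Tree.mem at h
    rw [Tree.toList, List.mem_append, List.mem_cons]
    cases h1 : Nat.blt x m with
    | true =>
      rw [h1, cond_true] at h
      exact Or.inl (Tree.mem_toList h)
    | false =>
      rw [h1, cond_false] at h
      cases h2 : Nat.blt m x with
      | true =>
        rw [h2, cond_true] at h
        exact Or.inr (Or.inr (Tree.mem_toList h))
      | false =>
        right; left
        have h1' : ¬ x < m := fun hlt => by
          have := Nat.blt_eq.mpr hlt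
          rw [h1] at this
          exact absurd this (by decide)
        have h2' : ¬ m < x := fun hlt => by
          have := Nat.blt_eq.mpr hlt
          rw [h2] at this
          exact absurd this (by decide)
        omega

/-- The check that `L` is a set of positions lost for the player to move: whatever move is made
from a position of `L`, it creates no cycle cell, and there is a reply which creates a cycle cell
or leads to a position of `L`. -/
def check (nd : ℕ) (vm fm : List ℕ) (L : Tree) : Bool :=
  L.toList.all fun m => (List.range nd).all fun d =>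
    !(legalB vm m d) || (!(cycB fm (m ||| 2 ^ d)) && (List.range nd).any fun r =>
      legalB vm (m ||| 2 ^ d) r &&
        (cycB fm ((m ||| 2 ^ d) ||| 2 ^ r) || L.mem ((m ||| 2 ^ d) ||| 2 ^ r)))

theorem wins_of_check {B : Board nv nd nf} {vm fm : List ℕ} {L : Tree} (hM : Masks B vm fm)
    (hc : check nd vm fm L = true) (k : ℕ) :
    ∀ m ∈ L.toList, nd - (dec nd m).card ≤ k → Wins B false (dec nd m) := by
  induction k using Nat.strong_induction_on with
  | _ k ih =>
    intro m hm hk
    unfold check at hc
    rw [List.all_eq_true] at hc
    have h1 := hc m hm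
    rw [List.all_eq_true] at h1
    have h2 : ∀ d : Fin nd, Legal B (dec nd m) d → cycB fm (m ||| 2 ^ (d : ℕ)) = false ∧
        ∃ r, r < nd ∧ legalB vm (m ||| 2 ^ (d : ℕ)) r = true ∧
          (cycB fm ((m ||| 2 ^ (d : ℕ)) ||| 2 ^ r) = true ∨ L.mem ((m ||| 2 ^ (d : ℕ)) ||| 2 ^ r) = true) := by
      intro d hd
      have h3 := h1 d (List.mem_range.mpr d.2)
      rw [(legal_iff hM m d).mpr hd] at h3
      simp only [Bool.not_true, Bool.false_or, Bool.and_eq_true, Bool.not_eq_true',
        List.any_eq_true, List.mem_range, Bool.or_eq_true] at h3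
      exact h3
    refine Wins.other (fun d hd => ?_) (fun d hd => ?_)
    · rw [← dec_insert]
      intro h
      rw [← cyc_iff hM, (h2 d hd).1] at h
      exact absurd h (by decide)
    · obtain ⟨-, r, hr, hleg, hor⟩ := h2 d hd
      have hleg' := (legal_iff hM (m ||| 2 ^ (d : ℕ)) ⟨r, hr⟩).mp hleg
      have hins : dec nd ((m ||| 2 ^ (d : ℕ)) ||| 2 ^ r) =
          insert (⟨r, hr⟩ : Fin nd) (dec nd (m ||| 2 ^ (d : ℕ))) :=
        dec_insert (m ||| 2 ^ (d : ℕ)) ⟨r, hr⟩
      rw [← dec_insert]
      rcases hor with h | h
      · apply Wins.cycle ⟨r, hr⟩ hleg'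
        rw [← hins, ← cyc_iff hM]
        exact h
      · apply Wins.move ⟨r, hr⟩ hleg'
        rw [← hins]
        have hcard : (dec nd m).card + 2 = (dec nd ((m ||| 2 ^ (d : ℕ)) ||| 2 ^ r)).card := by
          rw [hins, Finset.card_insert_of_notMem hleg'.1, dec_insert,
            Finset.card_insert_of_notMem hd.1]
        have hle : (dec nd ((m ||| 2 ^ (d : ℕ)) ||| 2 ^ r)).card ≤ nd := by
          have := Finset.card_le_univ (dec nd ((m ||| 2 ^ (d : ℕ)) ||| 2 ^ r))
          rwa [Fintype.card_fin] at this
        exact ih (nd - (dec nd ((m ||| 2 ^ (d : ℕ)) ||| 2 ^ r)).card) (by omega) _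
          (Tree.mem_toList h) le_rfl

theorem orbit_of {α β : Type} {g : α → α} {c : α → β} (h1 : ∀ d, c (g d) = c d) {n : ℕ}
    (h2 : ∀ d e, c d = c e → ∃ k < n, g^[k] d = e) (d e : α) :
    c d = c e ↔ ∃ k : ℕ, g^[k] d = e := by
  constructor
  · intro h
    obtain ⟨k, -, hk⟩ := h2 d e h
    exact ⟨k, hk⟩
  · rintro ⟨k, rfl⟩
    induction k with
    | zero => rfl
    | succ k ih => rw [Function.iterate_succ_apply', h1]; exact ih

theorem connected_of {n : ℕ} {A : Fin n → Fin n → Prop} (hs : ∀ a b, A a b → A b a) (o : Fin n)
    (h : ∀ v, ∃ a b, (o = a ∨ A o a) ∧ (a = b ∨ A a b) ∧ (b = v ∨ A b v)) (u v : Fin n) :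
    Relation.ReflTransGen A u v := by
  have hstep : ∀ a b, (a = b ∨ A a b) → Relation.ReflTransGen A a b := by
    rintro a b (rfl | h)
    · exact Relation.ReflTransGen.refl
    · exact Relation.ReflTransGen.single h
  have h0 : ∀ v, Relation.ReflTransGen A o v := by
    intro v
    obtain ⟨a, b, h1, h2, h3⟩ := h v
    exact ((hstep _ _ h1).trans (hstep _ _ h2)).trans (hstep _ _ h3)
  have hsym : Relation.ReflTransGen A u o := by
    have := h0 u
    induction this with
    | refl => exact Relation.ReflTransGen.refl
    | tail _ hbc ih => exact Relation.ReflTransGen.head (hs _ _ hbc) ih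
  exact hsym.trans (h0 v)

/-- The origins of the darts of the board with 9 edges (the cube graph without one vertex; the edges
are `05, 06, 14, 16, 24, 25, 34, 35, 36`; the darts `2i` and `2i + 1` belong to the edge number `i`). -/
def src9 : Fin 18 → Fin 7 :=
  ![0, 5, 0, 6, 1, 4, 1, 6, 2, 4, 2, 5, 3, 4, 3, 5, 3, 6]

/-- The opposite dart. -/
def rev9 (d : Fin 18) : Fin 18 := ⟨(d : ℕ) ^^^ 1, by revert d; decide⟩

/-- The rotation. -/
def rot9 : Fin 18 → Fin 18 :=
  ![2, 15, 0, 7, 6, 9, 4, 17, 10, 13, 8, 1, 14, 5, 16, 11, 12, 3]

/-- The face of a dart. -/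
def face9 : Fin 18 → Fin 4 :=
  ![0, 3, 3, 0, 3, 1, 1, 3, 2, 3, 3, 2, 1, 2, 2, 0, 0, 1]

/-- The board. -/
def board9 : Board 7 18 4 where
  src := src9
  rev := rev9
  rot := rot9
  face := face9
  outer := 3
  rev_rev := by decide +kernel
  no_loop := by decide +kernel
  simple := by decide +kernel
  src_surj := by decide +kernel
  face_surj := by decide +kernel
  vertex_orbit := orbit_of (by decide +kernel) (n := 6) (by decide +kernel)
  face_orbit := orbit_of (by decide +kernel) (n := 6) (by decide +kernel)
  connected := connected_of (by decide +kernel) 0 (by decide +kernel)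
  euler := by decide

/-- Bit masks of the stars of the vertices. -/
def vm9 : List ℕ :=
  [5, 10, 80, 160, 1280, 2560, 86016, 172032, 8736, 4368, 34818, 17409, 131208, 65604]

/-- Bit masks of the boundaries of the cells. -/
def fm9 : List ℕ :=
  [98313, 147462, 135264, 73872, 26880, 38400]

open Tree in
/-- Positions which are lost for the player to move. -/
def lost9 : Tree :=
  node (node (node (node (node (node (node (node nil 0 nil) 17 (node nil 24 nil)) 34 (node (node
  nil 36 nil) 66 (node nil 102 nil))) 129 (node (node (node nil 153 nil) 258 (node nil 278 nil))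
  281 (node (node nil 513 nil) 550 (node nil 553 nil)))) 1025 (node (node (node (node nil 1161
  nil) 1169 (node nil 1545 nil)) 1638 (node (node nil 1641 nil) 1689 (node nil 2050 nil))) 2118
  (node (node (node nil 2146 nil) 2310 (node nil 2406 nil)) 2454 (node (node nil 2457 nil) 4160
  nil)))) 4420 (node (node (node (node (node nil 4673 nil) 4680 (node nil 5137 nil)) 5154 (node
  (node nil 5156 nil) 5249 (node nil 5273 nil))) 6212 (node (node (node nil 6470 nil) 8320 (node
  nil 8578 nil)) 8580 (node (node nil 8840 nil) 9352 nil))) 9865 (node (node (node (node nil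
  10257 nil) 10264 (node nil 10274 nil)) 10306 (node (node nil 10342 nil) 16388 (node nil 16664
  nil))) 16674 (node (node (node nil 16706 nil) 16793 (node nil 16905 nil)) 16964 (node (node
  nil 17476 nil) 18020 nil))))) 18452 (node (node (node (node (node (node nil 18564 nil) 20516
  (node nil 20546 nil)) 20738 (node (node nil 20740 nil) 21033 (node nil 21065 nil))) 21568
  (node (node (node nil 22050 nil) 22052 (node nil 22082 nil)) 22084 (node (node nil 22088 nil)
  22530 (node nil 22674 nil)))) 22676 (node (node (node (node nil 22818 nil) 22820 (node nil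
  22850 nil)) 22852 (node (node nil 22914 nil) 22916 (node nil 24596 nil))) 24706 (node (node
  (node nil 25225 nil) 25700 (node nil 26132 nil)) 26180 (node (node nil 26242 nil) 26248
  nil)))) 32776 (node (node (node (node (node nil 33030 nil) 33160 (node nil 33297 nil)) 33316
  (node (node nil 33382 nil) 33409 (node nil 33832 nil))) 33864 (node (node (node nil 34952 nil)
  35224 (node nil 36904 nil)) 36929 (node (node nil 37190 nil) 39064 nil))) 39208 (node (node
  (node (node nil 39233 nil) 39236 (node nil 39304 nil)) 40984 (node (node nil 41089 nil) 41238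
  (node nil 41350 nil))) 41473 (node (node (node nil 41480 nil) 41985 (node nil 42081 nil))
  42088 (node (node nil 42513 nil) 42520 nil)))))) 42561 (node (node (node (node (node (node
  (node nil 42568 nil) 42625 (node nil 42632 nil)) 43136 (node (node nil 43281 nil) 43288 (node
  nil 43393 nil))) 43396 (node (node (node nil 43400 nil) 65537 (node nil 65574 nil)) 65634
  (node (node nil 65810 nil) 65921 (node nil 66072 nil)))) 66584 (node (node (node (node nil
  66593 nil) 66625 (node nil 67169 nil)) 67713 (node (node nil 67862 nil) 69649 (node nil 69656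
  nil))) 70145 (node (node (node nil 70182 nil) 70208 (node nil 70241 nil)) 70242 (node (node
  nil 70248 nil) 70289 nil)))) 70296 (node (node (node (node (node nil 70694 nil) 70753 (node
  nil 70754 nil)) 70801 (node (node nil 70808 nil) 71825 (node nil 71832 nil))) 72065 (node
  (node (node nil 73985 nil) 74081 (node nil 74849 nil)) 75778 (node (node nil 75814 nil) 75874
  nil))) 81937 (node (node (node (node nil 82049 nil) 82180 (node nil 82198 nil)) 82201 (node
  (node nil 82214 nil) 82274 (node nil 82310 nil))) 82313 (node (node (node nil 82457 nil) 82569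
  (node nil 83480 nil)) 83990 (node (node nil 83993 nil) 84066 nil))))) 84102 (node (node (node
  (node (node (node nil 84105 nil) 98582 (node nil 98854 nil)) 98914 (node (node nil 131074 nil)
  131097 (node nil 131217 nil))) 131364 (node (node (node nil 131617 nil) 131650 (node nil
  132162 nil)) 132649 (node (node nil 133138 nil) 133156 (node nil 133250 nil)))) 133522 (node
  (node (node (node nil 135682 nil) 135826 (node nil 136193 nil)) 136217 (node (node nil 136337
  nil) 137362 (node nil 139298 nil))) 139300 (node (node (node nil 139522 nil) 139545 (node nil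
  139618 nil)) 139620 (node (node nil 139648 nil) 139665 nil)))) 139666 (node (node (node (node
  (node nil 139668 nil) 140386 (node nil 140388 nil)) 140866 (node (node nil 141337 nil) 141410
  (node nil 141412 nil))) 141457 (node (node (node nil 141458 nil) 147737 (node nil 147857 nil))
  148009 (node (node nil 163874 nil) 163906 nil))) 164134 (node (node (node (node nil 164166
  nil) 164360 (node nil 164377 nil)) 164390 (node (node nil 164393 nil) 164422 (node nil 164425
  nil))) 164497 (node (node (node nil 164902 nil) 164905 (node nil 164934 nil)) 164937 (node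
  (node nil 165009 nil) 166180 nil))))))

instance (p : Fin 18 → Prop) [DecidablePred p] (o : ℕ) : Decidable (IsMask 18 p o) := by
  unfold IsMask
  infer_instance

theorem masks9 : Masks board9 vm9 fm9 where
  rev_eq := by decide +kernel
  v1 := by decide +kernel
  v2 := by decide +kernel
  f1 := by decide +kernel
  f2 := by decide +kernel

theorem check9 : check 18 vm9 fm9 lost9 = true := by decide +kernel

/-- The origins of the darts of the board with 10 edges (the edges are
`05, 06, 14, 16, 24, 25, 26, 34, 35, 36`; the darts `2i` and `2i + 1` belong to the edge number `i`). -/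
def src10 : Fin 20 → Fin 7 :=
  ![0, 5, 0, 6, 1, 4, 1, 6, 2, 4, 2, 5, 2, 6, 3, 4, 3, 5, 3, 6]

/-- The opposite dart. -/
def rev10 (d : Fin 20) : Fin 20 := ⟨(d : ℕ) ^^^ 1, by revert d; decide⟩

/-- The rotation. -/
def rot10 : Fin 20 → Fin 20 :=
  ![2, 17, 0, 13, 6, 9, 4, 19, 12, 15, 8, 1, 10, 7, 16, 5, 18, 11, 14, 3]

/-- The face of a dart. -/
def face10 : Fin 20 → Fin 5 :=
  ![1, 0, 0, 1, 2, 3, 3, 2, 4, 2, 0, 4, 2, 0, 3, 4, 4, 1, 1, 3]

/-- The board. -/
def board10 : Board 7 20 5 where
  src := src10
  rev := rev10
  rot := rot10
  face := face10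
  outer := 3
  rev_rev := by decide +kernel
  no_loop := by decide +kernel
  simple := by decide +kernel
  src_surj := by decide +kernel
  face_surj := by decide +kernel
  vertex_orbit := orbit_of (by decide +kernel) (n := 6) (by decide +kernel)
  face_orbit := orbit_of (by decide +kernel) (n := 6) (by decide +kernel)
  connected := connected_of (by decide +kernel) 0 (by decide +kernel)
  euler := by decide

/-- Bit masks of the stars of the vertices. -/
def vm10 : List ℕ :=
  [5, 10, 80, 160, 5376, 10752, 344064, 688128, 33312, 16656, 133122, 66561, 532616, 266308]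

/-- Bit masks of the boundaries of the cells. -/
def fm10 : List ℕ :=
  [9222, 6153, 393225, 589830, 4752, 8544, 100608, 148992]

open Tree in
/-- Positions which are lost for the player to move. -/
def lost10 : Tree :=
  node (node (node (node (node (node (node (node nil 524288 nil) 524305 (node nil 524312 nil))
  524324 (node (node nil 524356 nil) 524417 (node nil 524441 nil))) 524546 (node (node (node nil
  524690 nil) 524804 (node nil 524900 nil)) 525860 (node (node nil 525892 nil) 526344 (node nil
  526436 nil)))) 526610 (node (node (node (node nil 526632 nil) 526664 (node nil 526872 nil))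
  526884 (node (node nil 526977 nil) 528640 (node nil 528657 nil))) 528664 (node (node (node nil
  528676 nil) 528708 (node nil 528769 nil)) 528932 (node (node nil 529537 nil) 530020 (node nil
  530788 nil))))) 530834 (node (node (node (node (node nil 532505 nil) 532608 (node nil 532625
  nil)) 532626 (node (node nil 532628 nil) 532866 (node nil 533012 nil))) 533028 (node (node
  (node nil 533122 nil) 533124 (node nil 534658 nil)) 534930 (node (node nil 540809 nil) 541204
  (node nil 541696 nil)))) 541713 (node (node (node (node nil 541720 nil) 541730 (node nil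
  541732 nil)) 541762 (node (node nil 541849 nil) 541954 (node nil 542856 nil))) 543332 (node
  (node (node nil 545026 nil) 545380 (node nil 545800 nil)) 545817 (node (node nil 545890 nil)
  545892 nil))))) 545929 (node (node (node (node (node (node nil 547072 nil) 547108 (node nil
  547140 nil)) 547202 (node (node nil 548932 nil) 549476 (node nil 549522 nil))) 549524 (node
  (node (node nil 549913 nil) 550016 (node nil 550033 nil)) 551058 (node (node nil 551298 nil)
  557057 (node nil 557097 nil)))) 557156 (node (node (node (node nil 557330 nil) 557377 (node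
  nil 558089 nil)) 558377 (node (node nil 558409 nil) 558482 (node nil 558729 nil))) 559121
  (node (node (node nil 559233 nil) 559617 (node nil 561176 nil)) 561409 (node (node nil 561505
  nil) 561508 (node nil 561553 nil))))) 561554 (node (node (node (node (node nil 561560 nil)
  561668 (node nil 562201 nil)) 562276 (node (node nil 562313 nil) 562756 (node nil 563300
  nil))) 563780 (node (node (node nil 565281 nil) 565378 (node nil 565650 nil)) 565652 (node
  (node nil 565906 nil) 565908 (node nil 566313 nil)))) 567304 (node (node (node (node nil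
  567321 nil) 567337 (node nil 567369 nil)) 567441 (node (node nil 567442 nil) 567444 (node nil
  589832 nil))) 589865 (node (node (node nil 589961 nil) 589976 (node nil 590089 nil)) 590097
  (node (node nil 590233 nil) 590408 nil)))))) 590441 (node (node (node (node (node (node (node
  nil 590888 nil) 591464 (node nil 592008 nil)) 593944 (node (node nil 594192 nil) 594321 (node
  nil 594328 nil))) 594536 (node (node (node nil 595496 nil) 598280 (node nil 598297 nil))
  598400 (node (node nil 598417 nil) 598632 (node nil 599592 nil)))) 606248 (node (node (node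
  (node nil 606313 nil) 606361 (node nil 606505 nil)) 606537 (node (node nil 606601 nil) 606761
  (node nil 606793 nil))) 606857 (node (node (node nil 607240 nil) 607336 (node nil 607384 nil))
  607528 (node (node nil 607784 nil) 608408 (node nil 608552 nil))))) 608584 (node (node (node
  (node (node nil 608648 nil) 608897 (node nil 608904 nil)) 610856 (node (node nil 611352 nil)
  611368 (node nil 611400 nil))) 611944 (node (node (node nil 612736 nil) 614952 (node nil
  615017 nil)) 615688 (node (node nil 615808 nil) 616040 (node nil 622601 nil)))) 622697 (node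
  (node (node (node nil 622745 nil) 623241 (node nil 623912 nil)) 625169 (node (node nil 625176
  nil) 625217 (node nil 625224 nil))) 625281 (node (node (node nil 627736 nil) 630825 (node nil
  655376 nil)) 655506 (node (node nil 655650 nil) 655652 nil))))) 655682 (node (node (node (node
  (node (node nil 655684 nil) 655760 (node nil 655889 nil)) 655896 (node (node nil 656404 nil)
  656786 (node nil 656788 nil))) 657544 (node (node (node nil 657816 nil) 657924 (node nil
  657936 nil)) 658020 (node (node nil 659585 nil) 659750 (node nil 659782 nil)))) 659857 (node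
  (node (node (node nil 659864 nil) 660496 (node nil 660502 nil)) 660505 (node (node nil 660617
  nil) 661796 (node nil 661828 nil))) 662052 (node (node (node nil 663570 nil) 663682 (node nil
  663954 nil)) 664089 (node (node nil 664164 nil) 664209 nil)))) 664210 (node (node (node (node
  (node nil 664212 nil) 671762 (node nil 671894 nil)) 671897 (node (node nil 673058 nil) 673060
  (node nil 673090 nil))) 673092 (node (node (node nil 673154 nil) 674088 (node nil 674120 nil))
  674321 (node (node nil 674324 nil) 674328 (node nil 674433 nil)))) 674436 (node (node (node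
  (node nil 674440 nil) 675862 (node nil 676096 nil)) 676130 (node (node nil 676132 nil) 676162
  (node nil 676198 nil))) 676225 (node (node (node nil 676232 nil) 678176 (node nil 678244 nil))
  678500 (node (node nil 680082 nil) 682052 nil))))))

instance (p : Fin 20 → Prop) [DecidablePred p] (o : ℕ) : Decidable (IsMask 20 p o) := by
  unfold IsMask
  infer_instance

theorem masks10 : Masks board10 vm10 fm10 where
  rev_eq := by decide +kernel
  v1 := by decide +kernel
  v2 := by decide +kernel
  f1 := by decide +kernel
  f2 := by decide +kernel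

theorem check10 : check 20 vm10 fm10 lost10 = true := by decide +kernel


theorem dec_zero (nd : ℕ) : dec nd 0 = ∅ := by
  ext e
  simp [mem_dec]

theorem player2_board9 : Player2Wins board9 := by
  unfold Player2Wins
  rw [← dec_zero]
  exact wins_of_check masks9 check9 _ 0 (by decide +kernel) le_rfl

theorem player1_board10 : Player1Wins board10 := by
  unfold Player1Wins
  rw [← dec_zero]
  apply Wins.move (19 : Fin 20)
  · rw [← legal_iff masks10]
    decide +kernel
  · rw [← dec_insert]
    exact wins_of_check masks10 check10 _ _ (by decide +kernel) le_rfl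

/-- The statement of Q1 (for boards with at least one edge). -/
def ParityPattern : Prop :=
  ∀ (nv nd nf : ℕ) (B : Board nv nd nf), TriangleFree B →
    (Odd (edgeCount B) → Player1Wins B) ∧ (Even (edgeCount B) → Player2Wins B)

/-- Every vertex has at least two edges. -/
def MinDegreeTwo (B : Board nv nd nf) : Prop :=
  ∀ v, ∃ d e, d ≠ e ∧ B.src d = v ∧ B.src e = v

/-- **Q1 of MP_b0ae03_co is false, in both parities.**  There is a triangle-free game board with
an odd number of edges (nine) on which Player 2 wins and Player 1 does not, and there is a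
triangle-free game board with an even number of edges (ten) on which Player 1 wins and Player 2
does not.  All vertices of both boards have degree at least two. -/
theorem result :
    (∃ (nv nd nf : ℕ) (B : Board nv nd nf), TriangleFree B ∧ MinDegreeTwo B ∧ edgeCount B = 9 ∧
      Player2Wins B ∧ ¬ Player1Wins B) ∧
    (∃ (nv nd nf : ℕ) (B : Board nv nd nf), TriangleFree B ∧ MinDegreeTwo B ∧ edgeCount B = 10 ∧
      Player1Wins B ∧ ¬ Player2Wins B) ∧
    ¬ ParityPattern := by
  have t9 : TriangleFree board9 := by unfold TriangleFree; decide +kernel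
  have t10 : TriangleFree board10 := by unfold TriangleFree; decide +kernel
  have m9 : MinDegreeTwo board9 := by unfold MinDegreeTwo; decide +kernel
  have m10 : MinDegreeTwo board10 := by unfold MinDegreeTwo; decide +kernel
  refine ⟨⟨7, 18, 4, board9, t9, m9, rfl, player2_board9, not_both _ player2_board9⟩,
    ⟨7, 20, 5, board10, t10, m10, rfl, player1_board10, not_both _ player1_board10⟩, fun h => ?_⟩
  have h1 := (h 7 18 4 board9 t9).1 ⟨4, rfl⟩
  exact not_both _ player2_board9 h1

end Pool.Agent.Results.MP_b0ae03_co.TriangleFreeBoards
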